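import Pool.Agent.helper84.LP.SpecG

/-!
# Row `lp:BAB` (MP_07c750, project LP): the bad boxes
-/

open scoped MatrixGroups ContDiff Topology UpperHalfPlane ComplexConjugate
open UpperHalfPlane MeasureTheory Filter Set

set_option autoImplicit false

namespace Pool.Agent.LP

open Pool.Agent.RS
open Pool.Agent.MS (bq BB BA SF pf)
open Pool.Agent.HV (FW)
open Pool.Agent.EN (XG MG mkX mkM fl pr)
open Pool.Agent.ER (Low LowJ)

theorem BAB_fin (ξ : ℝ) (hξ : 0 < ξ) (P : ℝ → Prop) :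
    {k : ℤ | ∃ X : ℝ, (k : ℝ) * ξ ≤ X ∧ X < (k + 1) * ξ ∧ |X| ≤ 1 / 16 ∧ P X}.Finite := by
  refine (Set.finite_Icc (⌊-(1 / 16 / ξ) - 1⌋ : ℤ) ⌈1 / 16 / ξ⌉).subset ?_
  rintro k ⟨X, h1, h2, h3, -⟩
  rw [abs_le] at h3
  constructor
  · have h4 : -(1 / 16 / ξ) ≤ (k : ℝ) + 1 := by
      have h5 : (-(1 / 16) : ℝ) ≤ ((k : ℝ) + 1) * ξ := by linarith
      have h6 := (div_le_iff₀ hξ).2 h5
      rw [neg_div] at h6
      exact h6
    have h7 : ((⌊-(1 / 16 / ξ) - 1⌋ : ℤ) : ℝ) ≤ (k : ℝ) := (Int.floor_le _).trans (by linarith)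
    exact_mod_cast h7
  · have h4 : (k : ℝ) ≤ 1 / 16 / ξ := (le_div_iff₀ hξ).2 (by linarith)
    exact_mod_cast h4.trans (Int.le_ceil _)

theorem BAB_GD (U : Set ℝ) (C1 C2 a η : ℝ) (G m : ℕ) (X : ℝ) (h : C1 ≤ C2) (h1 : GD U C2 a η G m X) : GD U C1 a η G m X := by
  intro D c hD hc1 hc2 d hd
  refine h1 D c ⟨fun d hd => (hD.1 d hd).trans ?_, fun i hi y => (hD.2 i hi y).trans ?_⟩ hc1 hc2 d hd
  · exact mul_le_mul_of_nonneg_right h (Real.exp_pos _).le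
  · exact mul_le_mul_of_nonneg_right h (Real.exp_pos _).le

theorem BAB_proof (hNET : IR.NET_stmt) (hBBC : BBC_stmt) (hBBX : BBX_stmt) (hUZL : UZL_stmt) (hMO2 : MO2_stmt) : BAB_stmt := by
  classical
  intro Γ hΓ C1 a η h β b G hC1 ha0 ha hη haη hG hb0 hb hβ
  obtain ⟨Z, hZ⟩ := hNET Γ (b / 1000) hΓ (by positivity)
  obtain ⟨C, hC, hU⟩ := hUZL Γ hΓ
  have hG0 : (0 : ℝ) < (G : ℝ) := by
    have : (2 : ℝ) ≤ (G : ℝ) := by exact_mod_cast hG
    linarith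
  have hG1 : (1 : ℝ) ≤ (G : ℝ) := by
    have : (2 : ℝ) ≤ (G : ℝ) := by exact_mod_cast hG
    linarith
  have ha2 : (0 : ℝ) < 1 / 2 - a := by linarith
  obtain ⟨β', hβ1, hβ2⟩ : ∃ β' : ℝ, a + h - 1 + 5 * η + 6 / (G : ℝ) < β' * (1 / 2 - a) ∧ β' < β := by
    have h1 : (a + h - 1 + 5 * η + 6 / (G : ℝ)) / (1 / 2 - a) < β := (div_lt_iff₀ ha2).2 hβ
    obtain ⟨β', h2, h3⟩ := exists_between h1
    exact ⟨β', (div_lt_iff₀ ha2).1 h2, h3⟩
  obtain ⟨m0, hm0⟩ := hBBC (max C1 C) a η h β' b G (hC1.trans (le_max_left _ _)) ha0 ha hη haη hG hb0 (by linarith) hβ1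
  obtain ⟨m1, hm1⟩ := exists_nat_gt ((Z.card : ℝ) / (β - β'))
  have hββ : 0 < β - β' := by linarith
  refine ⟨max m0 m1, fun m Au Ad hm hAu => ?_⟩
  have hmm0 : m0 ≤ m := (le_max_left _ _).trans hm
  have hmm1 : (m1 : ℝ) ≤ (m : ℝ) := by exact_mod_cast (le_max_right _ _).trans hm
  set ξ : ℝ := b / 4 * Real.exp (-(G * m)) with hξdef
  have hξ : 0 < ξ := by positivity
  set K : SL(2, ℝ) → Finset ℤ := fun z => (BAB_fin ξ hξ fun X => ¬ GD (US Γ Au Ad (64 * b) G m z) (max C1 C) a η G m X).toFinset with hKdef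
  have hK : ∀ z, ((K z).card : ℝ) ≤ Real.exp (β' * (G * m)) := by
    intro z
    obtain ⟨h1, h2, h3, -⟩ := hU (64 * b) G m Au Ad z (by positivity) (by linarith)
    refine hm0 m (US Γ Au Ad (64 * b) G m z) (K z) hmm0 h1 h2 ?_ fun k hk => ?_
    · refine h3.trans ?_
      have h4 : Real.exp ((h + η - 1) * (G * m)) = Real.exp ((h + η) * (G * m)) * Real.exp (-(G * m)) := by
        rw [← Real.exp_add]
        congr 1
        ring
      rw [h4, ← mul_assoc]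
      refine mul_le_mul_of_nonneg_right ?_ (Real.exp_pos _).le
      exact mul_le_mul (le_max_right _ _) hAu (Nat.cast_nonneg _) (by linarith [le_max_right C1 C])
    · exact (Set.Finite.mem_toFinset (BAB_fin ξ hξ fun X => ¬ GD (US Γ Au Ad (64 * b) G m z) (max C1 C) a η G m X)).1 hk
  refine ⟨Z.biUnion fun z => (K z).image fun k : ℤ => z * nM (k * ξ) * aM (-(G * m)), ?_, fun h0 hh0 => ?_⟩
  · have h1 : ((Z.biUnion fun z => (K z).image fun k : ℤ => z * nM (k * ξ) * aM (-(G * m))).card : ℝ) ≤ Z.card * Real.exp (β' * (G * m)) := by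
      have h2 : (Z.biUnion fun z => (K z).image fun k : ℤ => z * nM (k * ξ) * aM (-(G * m))).card ≤ ∑ z ∈ Z, (K z).card :=
        Finset.card_biUnion_le.trans (Finset.sum_le_sum fun z _ => Finset.card_image_le)
      have h3 : ((∑ z ∈ Z, (K z).card : ℕ) : ℝ) ≤ ∑ z ∈ Z, Real.exp (β' * (G * m)) := by
        rw [Nat.cast_sum]
        exact Finset.sum_le_sum fun z _ => hK z
      rw [Finset.sum_const, nsmul_eq_mul] at h3
      exact (by exact_mod_cast h2 : ((Z.biUnion fun z => (K z).image fun k : ℤ => z * nM (k * ξ) * aM (-(G * m))).card : ℝ) ≤ ((∑ z ∈ Z, (K z).card : ℕ) : ℝ)).trans h3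
    refine h1.trans ?_
    have h4 : (Z.card : ℝ) ≤ Real.exp ((β - β') * (G * m)) := by
      have h5 : (Z.card : ℝ) < (β - β') * m1 := by
        have := (div_lt_iff₀ hββ).1 hm1
        linarith
      have h6 : (β - β') * m1 ≤ (β - β') * (G * m) := by
        refine mul_le_mul_of_nonneg_left ?_ hββ.le
        have h7 : (m : ℝ) ≤ G * m := le_mul_of_one_le_left (Nat.cast_nonneg _) hG1
        linarith
      linarith [Real.add_one_le_exp ((β - β') * (G * m))]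
    have h8 : Real.exp (β * (G * m)) = Real.exp ((β - β') * (G * m)) * Real.exp (β' * (G * m)) := by
      rw [← Real.exp_add]
      congr 1
      ring
    rw [h8]
    exact mul_le_mul_of_nonneg_right h4 (Real.exp_pos _).le
  · obtain ⟨z, hz, γ, w, τ, x, hw, hτ, hx, hγ⟩ := hZ h0
    refine ⟨z, γ, w, τ, x, hw, hτ, hx, hγ, ?_⟩
    by_contra hbad
    apply hh0
    have hbad' : ¬ GD (US Γ Au Ad (64 * b) G m z) (max C1 C) a η G m (sX w τ x) := fun h1 => hbad (BAB_GD _ C1 (max C1 C) a η G m _ (le_max_left _ _) h1)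
    have hsX : |sX w τ x| ≤ 1 / 16 := by
      have := (hMO2 (b / 1000) w τ x 0 (by positivity) (by linarith) hw hτ hx (by norm_num)).2.1
      linarith
    have h1 := Int.floor_le (sX w τ x / ξ)
    have h2 := Int.lt_floor_add_one (sX w τ x / ξ)
    have h3 : ((⌊sX w τ x / ξ⌋ : ℤ) : ℝ) * ξ ≤ sX w τ x := (le_div_iff₀ hξ).1 h1
    have h4 : sX w τ x < (((⌊sX w τ x / ξ⌋ : ℤ) : ℝ) + 1) * ξ := (div_lt_iff₀ hξ).1 h2
    have hkK : ⌊sX w τ x / ξ⌋ ∈ K z := (Set.Finite.mem_toFinset _).2 ⟨sX w τ x, h3, h4, hsX, hbad'⟩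
    have hbox := hBBX Γ b w τ x (((⌊sX w τ x / ξ⌋ : ℤ) : ℝ) * ξ) (G * m) h0 z γ hb0 (by linarith) (by positivity) hw hτ hx hγ (by
      rw [abs_of_nonneg (by linarith)]
      have : (((⌊sX w τ x / ξ⌋ : ℤ) : ℝ) + 1) * ξ = ((⌊sX w τ x / ξ⌋ : ℤ) : ℝ) * ξ + b / 4 * Real.exp (-(G * m)) := by
        rw [add_mul, one_mul]
      linarith)
    obtain ⟨y, hy, γ', hγ'⟩ := hbox
    rw [Finset.mem_singleton] at hy
    refine ⟨y, ?_, γ', hγ'⟩
    rw [hy]
    exact Finset.mem_biUnion.2 ⟨z, hz, Finset.mem_image.2 ⟨_, hkK, rfl⟩⟩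

end Pool.Agent.LP
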